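import Pool.Agent.H91.StrictDaug

set_option autoImplicit false

open H91.StrictDaug in
theorem Pool.Agent.Results.MP_7c844e_an.StrictDaug.result :
    ∃ (X : Type) (_ : NormedAddCommGroup X) (_ : NormedSpace ℝ X) (x : X),
    CompleteSpace X ∧ (∀ u v : X, ‖u‖ = 1 → ‖v‖ = 1 → ‖u + v‖ = 2 → u = v) ∧ ‖x‖ = 1 ∧
      ∀ (f : X →L[ℝ] ℝ) (α ε : ℝ), ‖f‖ = 1 → 0 < α → 0 < ε →
        ∃ y : X, ‖y‖ ≤ 1 ∧ 1 - α < f y ∧ 2 - ε < ‖x - y‖ :=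
  main
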